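import Pool.Agent.K.MP_48d4bc_co.C3

set_option autoImplicit false

open Pool.Agent.P.MP_48d4bc_co

universe u

theorem Pool.Agent.Results.MP_48d4bc_co.CliqueHost.result {α β : Type} [Finite β]
    (G₁ : SimpleGraph α) (G₂ : SimpleGraph β) (h : ¬ G₁.CliqueFree (Nat.card β + 1)) :
    ∃ (V : Type u) (H : SimpleGraph V), G₁.Free H ∧ ∀ c : Sym2 V → ℕ, HasMonoCopy G₂ H c :=
  clique_host G₁ G₂ h
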