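import Pool.Agent.K.MP_48d4bc_co.C4

set_option autoImplicit false

open Pool.Agent.P.MP_48d4bc_co

universe u

theorem Pool.Agent.Results.MP_48d4bc_co.ExceptionalFamily.result {α β γ : Type} [Finite α]
    [Finite β] (G₁ : SimpleGraph α) (G₂ : SimpleGraph β) (F : SimpleGraph γ)
    (h₁ : G₁.Colorable 3) (h₂ : ¬ G₂.CliqueFree 3) (hF : F.IsContained G₁)
    (hl : TriangleLinked F) (hfree : F.Free G₂) : Exceptional.{u} G₁ G₂ :=
  main.2.1 G₁ G₂ F h₁ h₂ hF hl hfree
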