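import Pool.Agent.P.MP_48d4bc_co.PW

set_option autoImplicit false

open Pool.Agent.P.MP_48d4bc_co

universe u

theorem Pool.Agent.Results.MP_48d4bc_co.Pi2Complete.result :
    (∃ R : ((ℕ × List (ℕ × ℕ)) × ℕ × List (ℕ × ℕ)) × ℕ → Prop, REPred R ∧
      ∀ p q : ℕ × List (ℕ × ℕ), (¬ (graphOf q.1 q.2).CliqueFree 3 ∧
        ((graphOf p.1 p.2).Colorable 3 ∨ (graphOf q.1 q.2).Colorable 3) ∧
        Exceptional.{u} (graphOf p.1 p.2) (graphOf q.1 q.2)) ↔ ∀ n, R ((p, q), n)) ∧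
    (∃ p : ℕ × List (ℕ × ℕ), (graphOf p.1 p.2).Colorable 3 ∧
      ∀ R : ℕ × ℕ → Prop, REPred R → ∃ f : ℕ → ℕ × List (ℕ × ℕ), Computable f ∧
        ∀ e, ¬ (graphOf (f e).1 (f e).2).CliqueFree 3 ∧
          (Exceptional.{u} (graphOf p.1 p.2) (graphOf (f e).1 (f e).2) ↔ ∀ n, R (e, n))) :=
  ⟨EX.PI.upper2, EX.PI.hard2⟩

/-- Side theorem, a consequence of the second part of the result: the set of all exceptional pairs
is not eventually decided by a computable approximation. -/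
theorem Pool.Agent.Results.MP_48d4bc_co.Pi2Complete.no_limit :
    ¬ ∃ h : ((ℕ × List (ℕ × ℕ)) × ℕ × List (ℕ × ℕ)) × ℕ → Bool, Computable h ∧
      ∀ p q : ℕ × List (ℕ × ℕ), Exceptional.{u} (graphOf p.1 p.2) (graphOf q.1 q.2) ↔
        ∀ᶠ s in Filter.atTop, h ((p, q), s) = true :=
  EX.PI.no_limit
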