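import Pool.Agent.K.MP_48d4bc_co.C6

set_option autoImplicit false

open Pool.Agent.P.MP_48d4bc_co

universe u

theorem Pool.Agent.Results.MP_48d4bc_co.ThreeChromatic.result {α β : Type} [Finite α] [Finite β]
    (G₁ : SimpleGraph α) (G₂ : SimpleGraph β) (h₂ : G₂.Colorable 3) (h₃ : ¬ G₂.CliqueFree 3) :
    (∀ (V : Type u) (H : SimpleGraph V), G₁.Free H → ∃ c : Sym2 V → ℕ, ¬ HasMonoCopy G₂ H c) ↔
      G₁.Colorable 3 :=
  T3.property_two_iff G₁ G₂ h₂ h₃
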